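import Pool.Agent.Q267.FLF.Om

set_option autoImplicit false

namespace Pool.Agent.Q267.FLF

open MeasureTheory Set
open scoped Real

/-- the antiderivative -/
noncomputable def GG (q a : ℝ) : ℝ :=
  (1 / 2) * (√((1 - a ^ 2) * (a ^ 2 - q ^ 2)) + (1 + q ^ 2) / 2 * Real.arcsin ((2 * a ^ 2 - 1 - q ^ 2) / (1 - q ^ 2))
    - q * Real.arcsin (((1 + q ^ 2) * a ^ 2 - 2 * q ^ 2) / ((1 - q ^ 2) * a ^ 2)))

lemma GG_one (q : ℝ) (h1 : q < 1) (h0 : 0 < q) : GG q 1 = (1 / 2) * ((1 + q ^ 2) / 2 * (π / 2) - q * (π / 2)) := by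
  have h : 1 - q ^ 2 ≠ 0 := by nlinarith
  unfold GG
  have e1 : (2 * (1 : ℝ) ^ 2 - 1 - q ^ 2) / (1 - q ^ 2) = 1 := by rw [div_eq_one_iff_eq h]; ring
  have e2 : ((1 + q ^ 2) * (1 : ℝ) ^ 2 - 2 * q ^ 2) / ((1 - q ^ 2) * 1 ^ 2) = 1 := by
    rw [div_eq_one_iff_eq (by simpa using h)]; ring
  rw [e1, e2, Real.arcsin_one]
  simp

lemma GG_q (q : ℝ) (h1 : q < 1) (h0 : 0 < q) : GG q q = (1 / 2) * (-((1 + q ^ 2) / 2 * (π / 2)) + q * (π / 2)) := by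
  have h : 1 - q ^ 2 ≠ 0 := by nlinarith
  have hq : q ≠ 0 := h0.ne'
  unfold GG
  have e1 : (2 * q ^ 2 - 1 - q ^ 2) / (1 - q ^ 2) = -1 := by rw [div_eq_iff h]; ring
  have e2 : ((1 + q ^ 2) * q ^ 2 - 2 * q ^ 2) / ((1 - q ^ 2) * q ^ 2) = -1 := by
    rw [div_eq_iff (by positivity)]; ring
  rw [e1, e2, Real.arcsin_neg, Real.arcsin_one]
  simp

lemma GG_deriv (q a : ℝ) (h0 : 0 < q) (hqa : q < a) (ha : a < 1) :
    HasDerivAt (GG q) (√(1 - a ^ 2) * √(a ^ 2 - q ^ 2) / a) a := by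
  have ha0 : 0 < a := lt_trans h0 hqa
  have hq1 : q < 1 := lt_trans hqa ha
  have hr : 0 < 1 - q ^ 2 := by nlinarith
  have hX1 : 0 < 1 - a ^ 2 := by nlinarith
  have hX2 : 0 < a ^ 2 - q ^ 2 := by nlinarith
  set X : ℝ := (1 - a ^ 2) * (a ^ 2 - q ^ 2) with hX
  have hXp : 0 < X := mul_pos hX1 hX2
  have hsX : 0 < √X := Real.sqrt_pos.2 hXp
  have hsX2 : √X ^ 2 = X := Real.sq_sqrt hXp.le
  have dsq : HasDerivAt (fun a : ℝ => a ^ 2) (2 * a) a := by simpa using hasDerivAt_pow 2 a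
  -- first piece
  have d1 : HasDerivAt (fun a : ℝ => (1 - a ^ 2) * (a ^ 2 - q ^ 2)) (-(2 * a) * (a ^ 2 - q ^ 2) + (1 - a ^ 2) * (2 * a)) a :=
    (dsq.const_sub 1).mul (dsq.sub_const (q ^ 2))
  have d1' := d1.sqrt hXp.ne'
  -- second piece
  have d2 : HasDerivAt (fun a : ℝ => (2 * a ^ 2 - 1 - q ^ 2) / (1 - q ^ 2)) (2 * (2 * a) / (1 - q ^ 2)) a :=
    (((dsq.const_mul 2).sub_const 1).sub_const (q ^ 2)).div_const _
  set u : ℝ := (2 * a ^ 2 - 1 - q ^ 2) / (1 - q ^ 2) with hu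
  have hu2 : 1 - u ^ 2 = (2 * √X / (1 - q ^ 2)) ^ 2 := by
    rw [hu, div_pow, div_pow, mul_pow, hsX2, hX]
    field_simp
    ring
  have hup : 0 < 1 - u ^ 2 := by rw [hu2]; positivity
  have hsu : √(1 - u ^ 2) = 2 * √X / (1 - q ^ 2) := by rw [hu2]; exact Real.sqrt_sq (by positivity)
  have hu1 : u ≠ -1 := by rintro h; rw [h] at hup; norm_num at hup
  have hu1' : u ≠ 1 := by rintro h; rw [h] at hup; norm_num at hup
  have d2' := (Real.hasDerivAt_arcsin hu1 hu1').comp a d2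
  -- third piece
  have hne : (1 - q ^ 2) * a ^ 2 ≠ 0 := by positivity
  have d3 : HasDerivAt (fun a : ℝ => ((1 + q ^ 2) * a ^ 2 - 2 * q ^ 2) / ((1 - q ^ 2) * a ^ 2))
      ((((1 + q ^ 2) * (2 * a)) * ((1 - q ^ 2) * a ^ 2) - ((1 + q ^ 2) * a ^ 2 - 2 * q ^ 2) * ((1 - q ^ 2) * (2 * a)))
        / ((1 - q ^ 2) * a ^ 2) ^ 2) a :=
    ((dsq.const_mul (1 + q ^ 2)).sub_const (2 * q ^ 2)).div (dsq.const_mul (1 - q ^ 2)) hne
  set w : ℝ := ((1 + q ^ 2) * a ^ 2 - 2 * q ^ 2) / ((1 - q ^ 2) * a ^ 2) with hw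
  have hw2 : 1 - w ^ 2 = (2 * q * √X / ((1 - q ^ 2) * a ^ 2)) ^ 2 := by
    rw [hw, div_pow, div_pow, mul_pow (2 * q), hsX2, hX]
    field_simp
    ring
  have hwp : 0 < 1 - w ^ 2 := by rw [hw2]; positivity
  have hsw : √(1 - w ^ 2) = 2 * q * √X / ((1 - q ^ 2) * a ^ 2) := by rw [hw2]; exact Real.sqrt_sq (by positivity)
  have hw1 : w ≠ -1 := by rintro h; rw [h] at hwp; norm_num at hwp
  have hw1' : w ≠ 1 := by rintro h; rw [h] at hwp; norm_num at hwp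
  have d3' := (Real.hasDerivAt_arcsin hw1 hw1').comp a d3
  have d := ((d1'.add (d2'.const_mul ((1 + q ^ 2) / 2))).sub (d3'.const_mul q)).const_mul (1 / 2)
  refine d.congr_deriv ?_
  have hs : √(1 - a ^ 2) * √(a ^ 2 - q ^ 2) = √X := by rw [hX, Real.sqrt_mul hX1.le]
  rw [hs, ← hX, hsu, hsw]
  have hXe : √X ^ 2 = (1 - a ^ 2) * (a ^ 2 - q ^ 2) := hsX2
  set s := √X
  field_simp
  rw [hXe]
  ring

lemma I1 (q : ℝ) (h0 : 0 < q) (h1 : q < 1) :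
    ∫ a in q..1, √(1 - a ^ 2) * √(a ^ 2 - q ^ 2) / a = π / 4 * (1 - q) ^ 2 := by
  have hc : ContinuousOn (fun a : ℝ => √(1 - a ^ 2) * √(a ^ 2 - q ^ 2) / a) (Icc q 1) := by
    apply ContinuousOn.div (by fun_prop) (by fun_prop)
    intro x hx
    exact (lt_of_lt_of_le h0 hx.1).ne'
  have hr : 0 < 1 - q ^ 2 := by nlinarith
  have h := intervalIntegral.integral_eq_sub_of_hasDerivAt_of_le (a := q) (b := 1) (f := GG q)
    (f' := fun a => √(1 - a ^ 2) * √(a ^ 2 - q ^ 2) / a) h1.le ?_ (fun a ha => GG_deriv q a h0 ha.1 ha.2)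
    (by
      apply ContinuousOn.intervalIntegrable
      rw [uIcc_of_le h1.le]
      exact hc)
  · rw [h, GG_one q h1 h0, GG_q q h1 h0]
    ring
  · unfold GG
    apply ContinuousOn.mul (by fun_prop)
    apply ContinuousOn.sub
    · apply ContinuousOn.add (by fun_prop)
      apply ContinuousOn.mul (by fun_prop)
      apply Real.continuous_arcsin.comp_continuousOn
      fun_prop
    · apply ContinuousOn.mul (by fun_prop)
      apply Real.continuous_arcsin.comp_continuousOn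
      apply ContinuousOn.div (by fun_prop) (by fun_prop)
      intro x hx
      have : 0 < x := lt_of_lt_of_le h0 hx.1
      positivity

end Pool.Agent.Q267.FLF
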