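import Pool.Agent.Q267.FLF.Dens

set_option autoImplicit false

namespace Pool.Agent.Q267.FLF

open MeasureTheory Set
open scoped Real

/-- the density of `tau` -/
noncomputable def fd (x : ℝ) : ENNReal :=
  ∫⁻ a in Ioo (0 : ℝ) 1, ENNReal.ofReal (√(1 - a ^ 2) * √(a ^ 2 - (2 * x - 1) ^ 2) / (π ^ 2 * a ^ 2))

lemma affine (a : ℝ) (ha : 0 < a) (h : ℝ → ENNReal) (hm : Measurable h) :
    ∫⁻ x, h x = ENNReal.ofReal (a / 2) * ∫⁻ b, h ((1 + a * b) / 2) := by
  have e1 : ∫⁻ x, h x = ∫⁻ x, h (x + 1 / 2) := (lintegral_add_right_eq_self h (1 / 2)).symm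
  rw [e1]
  have ha2 : a / 2 ≠ 0 := by positivity
  have e2 := Real.smul_map_volume_mul_left ha2
  conv_lhs => rw [← e2]
  rw [lintegral_smul_measure, lintegral_map (by fun_prop) (by fun_prop), abs_of_pos (by positivity)]
  simp only [smul_eq_mul]
  congr 1
  apply lintegral_congr
  intro b
  congr 1
  ring

lemma tau_dens (h : ℝ → ENNReal) (hm : Measurable h) : ∫⁻ x, h x ∂tau = ∫⁻ x, fd x * h x := by
  rw [lint_tau h hm]
  have m1 : Measurable (fun z : ℝ × ℝ => ENNReal.ofReal (wt z) * h ((1 + z.1 * z.2) / 2)) :=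
    meas_wt.mul (hm.comp meas_x)
  unfold base
  rw [lintegral_prod _ m1.aemeasurable]
  have e1 : ∀ a ∈ Ioo (0 : ℝ) 1, ∫⁻ b in Ioo (-1 : ℝ) 1, ENNReal.ofReal (wt (a, b)) * h ((1 + a * b) / 2)
      = ∫⁻ x, ENNReal.ofReal (√(1 - a ^ 2) * √(a ^ 2 - (2 * x - 1) ^ 2) / (π ^ 2 * a ^ 2)) * h x := by
    intro a ha
    rw [affine a ha.1 _ (by fun_prop), ← lintegral_const_mul _ (by fun_prop), ← lintegral_indicator measurableSet_Ioo]
    apply lintegral_congr
    intro b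
    by_cases hb : b ∈ Ioo (-1 : ℝ) 1
    · rw [indicator_of_mem hb, ← mul_assoc, ← ENNReal.ofReal_mul (by have := ha.1; positivity)]
      congr 2
      have e : a ^ 2 - (2 * ((1 + a * b) / 2) - 1) ^ 2 = a ^ 2 * (1 - b ^ 2) := by ring
      rw [e, Real.sqrt_mul (sq_nonneg a), Real.sqrt_sq ha.1.le, wt]
      have := ha.1.ne'
      field_simp
    · rw [indicator_of_notMem hb]
      have hb2 : 1 - b ^ 2 ≤ 0 := by
        by_contra hc
        apply hb
        have : b ^ 2 < 1 := by linarith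
        exact abs_lt.1 ((sq_lt_one_iff_abs_lt_one b).1 this)
      have e : a ^ 2 - (2 * ((1 + a * b) / 2) - 1) ^ 2 = a ^ 2 * (1 - b ^ 2) := by ring
      have e3 : a ^ 2 - (2 * ((1 + a * b) / 2) - 1) ^ 2 ≤ 0 := by
        rw [e]; exact mul_nonpos_of_nonneg_of_nonpos (sq_nonneg a) hb2
      rw [Real.sqrt_eq_zero_of_nonpos e3]
      simp
  rw [setLIntegral_congr_fun measurableSet_Ioo e1, lintegral_lintegral_swap (by fun_prop)]
  apply lintegral_congr
  intro x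
  unfold fd
  rw [lintegral_mul_const _ (by fun_prop)]

lemma I1' (q : ℝ) (h0 : 0 < q) (h1 : q < 1) :
    ∫⁻ a in Ioo (0 : ℝ) 1, ENNReal.ofReal (√(1 - a ^ 2) * √(a ^ 2 - q ^ 2) / a) = ENNReal.ofReal (π / 4 * (1 - q) ^ 2) := by
  have e1 : ∫⁻ a in Ioo (0 : ℝ) 1, ENNReal.ofReal (√(1 - a ^ 2) * √(a ^ 2 - q ^ 2) / a)
      = ∫⁻ a in Ioo q 1, ENNReal.ofReal (√(1 - a ^ 2) * √(a ^ 2 - q ^ 2) / a) := by
    rw [← lintegral_indicator measurableSet_Ioo, ← lintegral_indicator measurableSet_Ioo]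
    apply lintegral_congr
    intro a
    by_cases ha : a ∈ Ioo q 1
    · have h5 : a ∈ Ioo (0 : ℝ) 1 := ⟨lt_trans h0 ha.1, ha.2⟩
      rw [indicator_of_mem ha, indicator_of_mem h5]
    · rw [indicator_of_notMem ha]
      by_cases ha2 : a ∈ Ioo (0 : ℝ) 1
      · rw [indicator_of_mem ha2]
        have h3 : a ≤ q := by
          by_contra hc
          exact ha ⟨not_le.1 hc, ha2.2⟩
        have h4 : a ^ 2 - q ^ 2 ≤ 0 := by nlinarith [ha2.1]
        rw [Real.sqrt_eq_zero_of_nonpos h4]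
        simp
      · rw [indicator_of_notMem ha2]
  rw [e1]
  have hc : ContinuousOn (fun a : ℝ => √(1 - a ^ 2) * √(a ^ 2 - q ^ 2) / a) (Icc q 1) := by
    apply ContinuousOn.div (by fun_prop) (by fun_prop)
    intro x hx
    exact (lt_of_lt_of_le h0 hx.1).ne'
  have hi : Integrable (fun a : ℝ => √(1 - a ^ 2) * √(a ^ 2 - q ^ 2) / a) (volume.restrict (Ioo q 1)) :=
    hc.integrableOn_Icc.mono_set Ioo_subset_Icc_self
  rw [← ofReal_integral_eq_lintegral_ofReal hi, ← integral_Ioc_eq_integral_Ioo, ← intervalIntegral.integral_of_le h1.le,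
    I1 q h0 h1]
  filter_upwards [ae_restrict_mem measurableSet_Ioo] with a ha
  have : 0 < a := lt_trans h0 ha.1
  simp only [Pi.zero_apply]
  positivity

lemma min_abs (x : ℝ) : min x (1 - x) = (1 - |2 * x - 1|) / 2 := by
  rcases le_total x (1 / 2) with h | h
  · rw [min_eq_left (by linarith), abs_of_nonpos (by linarith)]; ring
  · rw [min_eq_right (by linarith), abs_of_nonneg (by linarith)]; ring

lemma fd_zero (x : ℝ) (hx : x ∉ Ioo (0 : ℝ) 1) : fd x = 0 := by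
  unfold fd
  have h : (1 : ℝ) ≤ (2 * x - 1) ^ 2 := by
    by_contra hc
    apply hx
    have h1 : |2 * x - 1| < 1 := (sq_lt_one_iff_abs_lt_one _).1 (not_le.1 hc)
    have := abs_lt.1 h1
    constructor <;> linarith [this.1, this.2]
  rw [setLIntegral_congr_fun (g := fun _ => 0) measurableSet_Ioo]
  · simp
  · intro a ha
    have h3 : a ^ 2 - (2 * x - 1) ^ 2 ≤ 0 := by nlinarith [ha.1, ha.2]
    simp only
    rw [Real.sqrt_eq_zero_of_nonpos h3]
    simp

lemma fd_ge (x : ℝ) (hx : x ∈ Ioo (0 : ℝ) 1) (hx2 : x ≠ 1 / 2) : ENNReal.ofReal ((min x (1 - x)) ^ 2 / π) ≤ fd x := by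
  set q := |2 * x - 1| with hq
  have hq0 : 0 < q := abs_pos.2 (by intro h; apply hx2; linarith)
  have hq1 : q < 1 := by rw [hq, abs_lt]; constructor <;> linarith [hx.1, hx.2]
  have hqq : (2 * x - 1) ^ 2 = q ^ 2 := by rw [hq, sq_abs]
  have hp := Real.pi_pos
  have e : ENNReal.ofReal ((min x (1 - x)) ^ 2 / π) = ENNReal.ofReal (1 / π ^ 2) * ENNReal.ofReal (π / 4 * (1 - q) ^ 2) := by
    rw [← ENNReal.ofReal_mul (by positivity), min_abs]
    congr 1
    rw [← hq]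
    field_simp
    norm_num
  rw [e, ← I1' q hq0 hq1, ← lintegral_const_mul _ (by fun_prop)]
  unfold fd
  apply setLIntegral_mono (by fun_prop)
  intro a ha
  rw [← ENNReal.ofReal_mul (by positivity)]
  apply ENNReal.ofReal_le_ofReal
  rw [hqq]
  have ha0 := ha.1
  have h1 : 1 / π ^ 2 * (√(1 - a ^ 2) * √(a ^ 2 - q ^ 2) / a) = (√(1 - a ^ 2) * √(a ^ 2 - q ^ 2) / π ^ 2) * (1 / a) := by
    field_simp
  have h2 : √(1 - a ^ 2) * √(a ^ 2 - q ^ 2) / (π ^ 2 * a ^ 2) = (√(1 - a ^ 2) * √(a ^ 2 - q ^ 2) / π ^ 2) * (1 / a ^ 2) := by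
    field_simp
  rw [h1, h2]
  apply mul_le_mul_of_nonneg_left _ (by positivity)
  apply one_div_le_one_div_of_le (by positivity)
  nlinarith [ha.2]

lemma fd_le (x : ℝ) (hx : x ∈ Ioo (0 : ℝ) 1) (hx2 : x ≠ 1 / 2) :
    fd x ≤ ENNReal.ofReal ((min x (1 - x)) ^ 2 / (π * |2 * x - 1|)) := by
  set q := |2 * x - 1| with hq
  have hq0 : 0 < q := abs_pos.2 (by intro h; apply hx2; linarith)
  have hq1 : q < 1 := by rw [hq, abs_lt]; constructor <;> linarith [hx.1, hx.2]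
  have hqq : (2 * x - 1) ^ 2 = q ^ 2 := by rw [hq, sq_abs]
  have hp := Real.pi_pos
  have e : ENNReal.ofReal ((min x (1 - x)) ^ 2 / (π * q))
      = ENNReal.ofReal (1 / (π ^ 2 * q)) * ENNReal.ofReal (π / 4 * (1 - q) ^ 2) := by
    rw [← ENNReal.ofReal_mul (by positivity), min_abs]
    congr 1
    rw [← hq]
    field_simp
    norm_num
  rw [e, ← I1' q hq0 hq1, ← lintegral_const_mul _ (by fun_prop)]
  unfold fd
  apply setLIntegral_mono (by fun_prop)
  intro a ha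
  rw [← ENNReal.ofReal_mul (by positivity)]
  apply ENNReal.ofReal_le_ofReal
  rw [hqq]
  have ha0 := ha.1
  rcases le_or_gt a q with haq | haq
  · have h4 : a ^ 2 - q ^ 2 ≤ 0 := by nlinarith
    rw [Real.sqrt_eq_zero_of_nonpos h4]
    simp
  · have h1 : 1 / (π ^ 2 * q) * (√(1 - a ^ 2) * √(a ^ 2 - q ^ 2) / a) = (√(1 - a ^ 2) * √(a ^ 2 - q ^ 2) / π ^ 2) * (1 / (q * a)) := by
      field_simp
    have h2 : √(1 - a ^ 2) * √(a ^ 2 - q ^ 2) / (π ^ 2 * a ^ 2) = (√(1 - a ^ 2) * √(a ^ 2 - q ^ 2) / π ^ 2) * (1 / a ^ 2) := by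
      field_simp
    rw [h1, h2]
    apply mul_le_mul_of_nonneg_left _ (by positivity)
    apply one_div_le_one_div_of_le (by positivity)
    nlinarith

lemma half_ae : ∀ᵐ x : ℝ, x ≠ 1 / 2 := by
  simp [ae_iff]

/-- upper bound for integrals with respect to `tau` -/
lemma tau_le (h : ℝ → ENNReal) (hm : Measurable h) :
    ∫⁻ x, h x ∂tau ≤ ∫⁻ x in Ioo (0 : ℝ) 1, ENNReal.ofReal ((min x (1 - x)) ^ 2 / (π * |2 * x - 1|)) * h x := by
  rw [tau_dens h hm, ← lintegral_indicator measurableSet_Ioo]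
  apply lintegral_mono_ae
  filter_upwards [half_ae] with x hx2
  by_cases hx : x ∈ Ioo (0 : ℝ) 1
  · rw [indicator_of_mem hx]
    exact mul_le_mul_left (fd_le x hx hx2) _
  · rw [fd_zero x hx]
    simp

/-- lower bound for integrals with respect to `tau` -/
lemma tau_ge (h : ℝ → ENNReal) (hm : Measurable h) :
    ∫⁻ x in Ioo (0 : ℝ) 1, ENNReal.ofReal ((min x (1 - x)) ^ 2 / π) * h x ≤ ∫⁻ x, h x ∂tau := by
  rw [tau_dens h hm, ← lintegral_indicator measurableSet_Ioo]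
  apply lintegral_mono_ae
  filter_upwards [half_ae] with x hx2
  by_cases hx : x ∈ Ioo (0 : ℝ) 1
  · rw [indicator_of_mem hx]
    exact mul_le_mul_left (fd_ge x hx hx2) _
  · rw [indicator_of_notMem hx]
    simp

end Pool.Agent.Q267.FLF
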