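import Mathlib

set_option autoImplicit false

namespace Pool.Agent.Q267.FLF

/-- kernel inequality below `1/4` -/
lemma kerC (u w : ℝ) (hw : 0 < w) (hwu : w ≤ u) (hu : u ≤ 1) (huw : u * w ≤ 1 / 4) (hw2 : w < 1 / 2) :
    (u - w) ^ 2 ≤ 2 * u ^ 2 * (1 - w) * (1 - 2 * w) * (1 - u * w) := by
  have hu0 : 0 < u := lt_of_lt_of_le hw hwu
  rcases le_total (4 * w) u with h | h
  · have a1 : 0 ≤ u - w := by linarith
    have a2 : u - w ≤ u * (1 - w) := by nlinarith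
    have a3 : u - w ≤ u * (1 - u * w) := by nlinarith [mul_nonneg hu0.le (sub_nonneg.2 hu), mul_pos hu0 hw]
    have a4 : 1 ≤ 2 * (1 - 2 * w) := by linarith
    calc (u - w) ^ 2 = (u - w) * (u - w) := by ring
      _ ≤ (u * (1 - w)) * (u * (1 - u * w)) := mul_le_mul a2 a3 a1 (le_trans a1 a2)
      _ = 1 * ((u * (1 - w)) * (u * (1 - u * w))) := by ring
      _ ≤ (2 * (1 - 2 * w)) * ((u * (1 - w)) * (u * (1 - u * w))) := by
          apply mul_le_mul_of_nonneg_right a4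
          exact mul_nonneg (le_trans a1 a2) (le_trans a1 a3)
      _ = _ := by ring
  · set r := Real.sqrt (w / u) with hr
    have hr0 : 0 ≤ r := Real.sqrt_nonneg _
    have hr2 : r ^ 2 = w / u := Real.sq_sqrt (by positivity)
    have hwr : w = r ^ 2 * u := by rw [hr2]; field_simp
    have hr3 : r ^ 2 ≤ 1 := by rw [hr2]; exact (div_le_one hu0).2 hwu
    have hr1 : r ≤ 1 := by nlinarith
    have hr4 : 1 / 4 ≤ r ^ 2 := by rw [hr2, le_div_iff₀ hu0]; linarith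
    have hr5 : 1 / 2 ≤ r := by nlinarith
    have hw3 : w ≤ r / 2 := by
      have : w ^ 2 ≤ (r / 2) ^ 2 := by
        have e : w ^ 2 = r ^ 2 * (u * w) := by rw [hwr]; ring
        rw [e]
        nlinarith
      exact le_of_sq_le_sq this (by positivity) 
    have b1 : (1 - r / 2) * (1 - r) ≤ (1 - w) * (1 - 2 * w) := by
      apply mul_le_mul (by linarith) (by linarith) (by linarith) (by linarith)
    have b2 : (3 : ℝ) / 4 ≤ 1 - u * w := by linarith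
    have b3 : (1 - r ^ 2) ^ 2 ≤ 2 * ((1 - r / 2) * (1 - r)) * (3 / 4) := by
      have e : 2 * ((1 - r / 2) * (1 - r)) * (3 / 4) - (1 - r ^ 2) ^ 2 = (1 - r) * ((r - 1 / 2) ^ 2 * (r + 2)) := by
        ring
      have : 0 ≤ (1 - r) * ((r - 1 / 2) ^ 2 * (r + 2)) :=
        mul_nonneg (by linarith) (mul_nonneg (sq_nonneg _) (by linarith))
      linarith
    have b0 : 0 ≤ (1 - r / 2) * (1 - r) := mul_nonneg (by linarith) (by linarith)
    have b4 : 2 * ((1 - r / 2) * (1 - r)) * (3 / 4) ≤ 2 * ((1 - w) * (1 - 2 * w)) * (1 - u * w) := by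
      apply mul_le_mul (by linarith) b2 (by norm_num)
      exact mul_nonneg (by norm_num) (le_trans b0 b1)
    calc (u - w) ^ 2 = u ^ 2 * (1 - r ^ 2) ^ 2 := by rw [hwr]; ring
      _ ≤ u ^ 2 * (2 * ((1 - w) * (1 - 2 * w)) * (1 - u * w)) :=
          mul_le_mul_of_nonneg_left (le_trans b3 b4) (sq_nonneg _)
      _ = _ := by ring

/-- kernel inequality above `1/4` -/
lemma kerA (u w : ℝ) (hwu : w ≤ u) (hu : u < 1) (huw : 1 / 4 ≤ u * w) (hw : 0 < w) :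
    (1 - u) * (u - w) ^ 2 ≤ 2 * (1 - u * w) * (min (u * w) (1 - u * w)) ^ 2 * (2 * u - 1) := by
  have hu0 : 0 < u := lt_of_lt_of_le hw hwu
  set y := u * w with hy
  have hyu : y ≤ u ^ 2 := by rw [hy]; nlinarith
  have hu2 : 1 / 2 ≤ u := by nlinarith
  have hw1 : w < 1 := lt_of_le_of_lt hwu hu
  have hy1 : y < u := by rw [hy]; nlinarith
  have huw2 : u * (u - w) = u ^ 2 - y := by rw [hy]; ring
  suffices h : (1 - u) * (u ^ 2 - y) ^ 2 ≤ 2 * (1 - y) * (min y (1 - y)) ^ 2 * (2 * u - 1) * u ^ 2 by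
    have e : (1 - u) * (u ^ 2 - y) ^ 2 = ((1 - u) * (u - w) ^ 2) * u ^ 2 := by rw [← huw2]; ring
    rw [e] at h
    exact le_of_mul_le_mul_right h (by positivity)
  rcases le_total y (1 / 2) with hyh | hyh
  · rw [min_eq_left (by linarith)]
    have c1 : (1 - u) * (u ^ 2 - y) ^ 2 ≤ (1 - u) * (u ^ 2 - 1 / 4) ^ 2 := by
      apply mul_le_mul_of_nonneg_left _ (by linarith)
      apply pow_le_pow_left₀ (by linarith)
      linarith
    have c2 : (3 / 64 : ℝ) ≤ (1 - y) * y ^ 2 := by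
      have e : (1 - y) * y ^ 2 - 3 / 64 = (y - 1 / 4) * (3 / 16 + 3 / 4 * y - y ^ 2) := by ring
      have : 0 ≤ (y - 1 / 4) * (3 / 16 + 3 / 4 * y - y ^ 2) := by
        apply mul_nonneg (by linarith)
        nlinarith
      linarith
    have c3 : (1 - u) * (u ^ 2 - 1 / 4) ^ 2 ≤ 2 * (3 / 64) * (2 * u - 1) * u ^ 2 := by
      have q : 0 ≤ 8 * u ^ 4 - 4 * u ^ 3 - 9 / 2 * u ^ 2 + u + 1 := by
        nlinarith [sq_nonneg (u ^ 2 - u / 4 - 33 / 100), sq_nonneg (u - 4 / 7)]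
      have e : 2 * (3 / 64) * (2 * u - 1) * u ^ 2 - (1 - u) * (u ^ 2 - 1 / 4) ^ 2
          = (2 * u - 1) / 16 * (8 * u ^ 4 - 4 * u ^ 3 - 9 / 2 * u ^ 2 + u + 1) := by ring
      have : 0 ≤ (2 * u - 1) / 16 * (8 * u ^ 4 - 4 * u ^ 3 - 9 / 2 * u ^ 2 + u + 1) :=
        mul_nonneg (by linarith) q
      linarith
    have c4 : 2 * (3 / 64) * (2 * u - 1) * u ^ 2 ≤ 2 * (1 - y) * y ^ 2 * (2 * u - 1) * u ^ 2 := by
      have : 0 ≤ (2 * u - 1) * u ^ 2 := mul_nonneg (by linarith) (sq_nonneg _)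
      nlinarith
    linarith
  · rw [min_eq_right (by linarith)]
    have d1 : 0 ≤ u ^ 2 - y := by linarith
    have d2 : u ^ 2 - y ≤ (1 - y) * (2 * u ^ 2 - 1) := by
      have e : (1 - y) * (2 * u ^ 2 - 1) - (u ^ 2 - y) = (1 - u ^ 2) * (2 * y - 1) := by ring
      have : 0 ≤ (1 - u ^ 2) * (2 * y - 1) := mul_nonneg (by nlinarith) (by linarith)
      linarith
    have d0 : 0 ≤ 2 * u ^ 2 - 1 := by linarith
    have d3 : (2 * u ^ 2 - 1) ^ 2 ≤ (2 * u - 1) * u ^ 2 := by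
      have f1 : 2 * u ^ 2 - 1 ≤ 2 * u - 1 := by nlinarith
      have f2 : 2 * u ^ 2 - 1 ≤ u ^ 2 := by nlinarith
      calc (2 * u ^ 2 - 1) ^ 2 = (2 * u ^ 2 - 1) * (2 * u ^ 2 - 1) := by ring
        _ ≤ (2 * u - 1) * u ^ 2 := mul_le_mul f1 f2 d0 (by linarith)
    have y1 : 0 ≤ 1 - y := by linarith
    calc (1 - u) * (u ^ 2 - y) ^ 2 ≤ (1 - y) * ((1 - y) * (2 * u ^ 2 - 1)) ^ 2 := by
          apply mul_le_mul (by linarith) (pow_le_pow_left₀ d1 d2 2) (sq_nonneg _) y1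
      _ = (1 - y) ^ 3 * (2 * u ^ 2 - 1) ^ 2 := by ring
      _ ≤ (1 - y) ^ 3 * ((2 * u - 1) * u ^ 2) := mul_le_mul_of_nonneg_left d3 (by positivity)
      _ ≤ 2 * ((1 - y) ^ 3 * ((2 * u - 1) * u ^ 2)) := by
          have : 0 ≤ (1 - y) ^ 3 * ((2 * u - 1) * u ^ 2) := mul_nonneg (by positivity) (mul_nonneg (by linarith) (sq_nonneg _))
          linarith
      _ = _ := by ring

end Pool.Agent.Q267.FLF
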