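import Pool.Agent.Q267.FLF.Dens2
import Pool.Agent.Q267.FLF.Kernel

set_option autoImplicit false

namespace Pool.Agent.Q267.FLF

open MeasureTheory Set
open scoped Real

/-- `P = c (1 - x) τ` -/
noncomputable def PP : Measure ℝ := tau.withDensity (fun x => ENNReal.ofReal (cc * (1 - x)))

noncomputable def gg (y : ℝ) : ENNReal := ENNReal.ofReal ((1 - y) * (min y (1 - y)) ^ 2 / π)

lemma meas_gg : Measurable gg := by unfold gg; fun_prop

noncomputable def BB (s : Set ℝ) : ENNReal := ∫⁻ y in Ioo (0 : ℝ) 1, s.indicator gg y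

lemma cc_pos : 0 < cc := by have := cc_ge; linarith

lemma PP_ge (s : Set ℝ) (hs : MeasurableSet s) : ENNReal.ofReal cc * BB s ≤ PP s := by
  unfold PP BB
  rw [withDensity_apply _ hs, ← lintegral_indicator hs]
  refine le_trans ?_ (tau_ge _ (Measurable.indicator (by fun_prop) hs))
  rw [← lintegral_const_mul _ (meas_gg.indicator hs)]
  apply setLIntegral_mono' measurableSet_Ioo
  intro x hx
  by_cases hxs : x ∈ s
  · rw [indicator_of_mem hxs, indicator_of_mem hxs]
    unfold gg
    rw [← ENNReal.ofReal_mul cc_pos.le, ← ENNReal.ofReal_mul (by have := Real.pi_pos; positivity)]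
    apply le_of_eq
    congr 1
    ring
  · rw [indicator_of_notMem hxs, indicator_of_notMem hxs]
    simp

/-- the kernel -/
noncomputable def KK (s : Set ℝ) (z : ℝ × ℝ) : ENNReal :=
  s.indicator (fun _ => 1) (z.1 * z.2) * ENNReal.ofReal ((z.1 - z.2) ^ 2)

lemma meas_KK (s : Set ℝ) (hs : MeasurableSet s) : Measurable (KK s) := by
  unfold KK
  apply Measurable.mul
  · exact (measurable_const.indicator hs).comp meas_mul
  · fun_prop

def R1 : Set (ℝ × ℝ) := {z | (z.2 < z.1 ∧ z.1 * z.2 < 1 / 4) ∨ (z.1 < z.2 ∧ 1 / 4 ≤ z.1 * z.2)}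

lemma meas_R1 : MeasurableSet R1 := by
  unfold R1
  apply MeasurableSet.union
  · exact (measurableSet_lt measurable_snd measurable_fst).inter (measurableSet_lt meas_mul measurable_const)
  · exact (measurableSet_lt measurable_fst measurable_snd).inter (measurableSet_le measurable_const meas_mul)

lemma KK_swap (s : Set ℝ) (z : ℝ × ℝ) : KK s z.swap = KK s z := by
  unfold KK
  simp only [Prod.fst_swap, Prod.snd_swap]
  rw [mul_comm z.2 z.1]
  congr 2
  ring

lemma KK_le (s : Set ℝ) (z : ℝ × ℝ) : KK s z ≤ R1.indicator (KK s) z + R1.indicator (KK s) z.swap := by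
  by_cases h1 : z ∈ R1
  · rw [indicator_of_mem h1]; exact le_self_add
  · by_cases h2 : z.swap ∈ R1
    · rw [indicator_of_mem h2, KK_swap]; exact le_add_self
    · have h3 : z.1 = z.2 := by
        simp only [R1, mem_ofPred_eq, Prod.fst_swap, Prod.snd_swap, not_or, not_and, not_lt, not_le] at h1 h2
        rcases lt_trichotomy z.1 z.2 with h | h | h
        · have a := h1.2 h
          have b := h2.1 h
          rw [mul_comm] at b
          linarith
        · exact h
        · have a := h1.1 h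
          have b := h2.2 h
          rw [mul_comm] at b
          linarith
      unfold KK
      rw [h3]
      simp

lemma LL_le (s : Set ℝ) (hs : MeasurableSet s) : LL om s ≤ ∫⁻ z, R1.indicator (KK s) z ∂(om.prod om) := by
  have := om_finite
  have mI : Measurable (R1.indicator (KK s)) := (meas_KK s hs).indicator meas_R1
  have h1 : 2 * LL om s = ∫⁻ z, KK s z ∂(om.prod om) := by
    unfold LL
    rw [Measure.map_apply meas_mul hs, withDensity_apply _ (meas_mul hs), ← lintegral_indicator (meas_mul hs),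
      ← lintegral_const_mul _ (meas_dens.indicator (meas_mul hs))]
    apply lintegral_congr
    intro z
    unfold KK
    by_cases hz : z.1 * z.2 ∈ s
    · rw [indicator_of_mem (show z ∈ (fun z : ℝ × ℝ => z.1 * z.2) ⁻¹' s from hz), indicator_of_mem hz, one_mul]
      have : (2 : ENNReal) = ENNReal.ofReal 2 := by simp
      rw [this, ← ENNReal.ofReal_mul (by norm_num)]
      congr 1
      ring
    · rw [indicator_of_notMem (show z ∉ (fun z : ℝ × ℝ => z.1 * z.2) ⁻¹' s from hz), indicator_of_notMem hz]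
      simp
  have h2 : ∫⁻ z, KK s z ∂(om.prod om) ≤ 2 * ∫⁻ z, R1.indicator (KK s) z ∂(om.prod om) := by
    calc ∫⁻ z, KK s z ∂(om.prod om) ≤ ∫⁻ z, (R1.indicator (KK s) z + R1.indicator (KK s) z.swap) ∂(om.prod om) :=
          lintegral_mono (KK_le s)
      _ = ∫⁻ z, R1.indicator (KK s) z ∂(om.prod om) + ∫⁻ z, R1.indicator (KK s) z.swap ∂(om.prod om) :=
          lintegral_add_left mI _
      _ = 2 * ∫⁻ z, R1.indicator (KK s) z ∂(om.prod om) := by
          rw [lintegral_prod_swap (μ := om) (ν := om) (R1.indicator (KK s)), two_mul]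
  rw [← h1] at h2
  exact (ENNReal.mul_le_mul_iff_right (by norm_num) (by simp)).1 h2

lemma scale (x : ℝ) (hx : x ∈ Ioo (0 : ℝ) 1) (g : ℝ → ENNReal) (hg : Measurable g) :
    ∫⁻ y in Ioo (0 : ℝ) 1, g (x * y) ≤ ENNReal.ofReal (1 / x) * ∫⁻ y in Ioo (0 : ℝ) 1, g y := by
  have e := Real.map_volume_mul_left hx.1.ne'
  have mI : Measurable ((Ioo (0 : ℝ) 1).indicator g) := hg.indicator measurableSet_Ioo
  calc ∫⁻ y in Ioo (0 : ℝ) 1, g (x * y) ≤ ∫⁻ y, (Ioo (0 : ℝ) 1).indicator g (x * y) := by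
        rw [← lintegral_indicator measurableSet_Ioo]
        apply lintegral_mono
        intro y
        by_cases hy : y ∈ Ioo (0 : ℝ) 1
        · have h2 : x * y ∈ Ioo (0 : ℝ) 1 := ⟨mul_pos hx.1 hy.1, by nlinarith [hx.1, hx.2, hy.1, hy.2]⟩
          simp only [indicator_of_mem hy, indicator_of_mem h2]
          exact le_refl _
        · simp only [indicator_of_notMem hy]
          exact zero_le
    _ = ∫⁻ y, (Ioo (0 : ℝ) 1).indicator g y ∂(Measure.map (x * ·) volume) := by
        rw [lintegral_map mI (by fun_prop)]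
    _ = ENNReal.ofReal (1 / x) * ∫⁻ y in Ioo (0 : ℝ) 1, g y := by
        rw [e, lintegral_smul_measure, lintegral_indicator measurableSet_Ioo, abs_of_pos (inv_pos.2 hx.1), one_div]
        rfl

lemma point (s : Set ℝ) (x y : ℝ) (hx : x ∈ Ioo (0 : ℝ) 1) (hy : y ∈ Ioo (0 : ℝ) 1) :
    ENNReal.ofReal ((min y (1 - y)) ^ 2 / (π * |2 * y - 1|)) * (ENNReal.ofReal (1 / (1 - y)) * R1.indicator (KK s) (x, y))
      ≤ 2 * s.indicator gg (x * y) := by
  by_cases h1 : (x, y) ∈ R1
  swap
  · rw [indicator_of_notMem h1]; simp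
  rw [indicator_of_mem h1]
  unfold KK
  by_cases h2 : x * y ∈ s
  swap
  · simp only [indicator_of_notMem h2]; simp
  simp only [indicator_of_mem h2, one_mul]
  have hp := Real.pi_pos
  have hy1 : 0 < 1 - y := by linarith [hy.2]
  have hx0 := hx.1
  have hx1 := hx.2
  have hy0 := hy.1
  have h22 : (2 : ENNReal) = ENNReal.ofReal 2 := by simp
  unfold gg
  rw [h22, ← ENNReal.ofReal_mul (by positivity), ← ENNReal.ofReal_mul (by positivity), ← ENNReal.ofReal_mul (by norm_num)]
  apply ENNReal.ofReal_le_ofReal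
  simp only [R1, mem_ofPred_eq] at h1
  rcases h1 with ⟨hyx, hxy⟩ | ⟨hxy1, hxy⟩
  · have hy2 : y < 1 / 2 := by nlinarith
    have hk := kerC x y hy0 hyx.le hx1.le hxy.le hy2
    rw [min_eq_left (by linarith), min_eq_left (by linarith), abs_of_neg (by linarith)]
    have hd : 0 < 1 - 2 * y := by linarith
    have e1 : y ^ 2 / (π * -(2 * y - 1)) * (1 / (1 - y) * (x - y) ^ 2) = (x - y) ^ 2 * (y ^ 2 / (π * (1 - 2 * y) * (1 - y))) := by
      have : -(2 * y - 1) = 1 - 2 * y := by ring
      rw [this]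
      field_simp
    have e2 : 2 * ((1 - x * y) * (x * y) ^ 2 / π)
        = (2 * x ^ 2 * (1 - y) * (1 - 2 * y) * (1 - x * y)) * (y ^ 2 / (π * (1 - 2 * y) * (1 - y))) := by
      field_simp
    rw [e1, e2]
    exact mul_le_mul_of_nonneg_right hk (by positivity)
  · have hy2 : 1 / 2 < y := by nlinarith
    have hk := kerA y x hxy1.le hy.2 (by rw [mul_comm]; exact hxy) hx0
    rw [min_eq_right (by linarith : 1 - y ≤ y), abs_of_pos (by linarith : 0 < 2 * y - 1)]
    have hd : 0 < 2 * y - 1 := by linarith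
    have e1 : (1 - y) ^ 2 / (π * (2 * y - 1)) * (1 / (1 - y) * (x - y) ^ 2) = ((1 - y) * (y - x) ^ 2) * (1 / (π * (2 * y - 1))) := by
      field_simp
      ring
    have e2 : 2 * ((1 - x * y) * (min (x * y) (1 - x * y)) ^ 2 / π)
        = (2 * (1 - y * x) * (min (y * x) (1 - y * x)) ^ 2 * (2 * y - 1)) * (1 / (π * (2 * y - 1))) := by
      rw [mul_comm y x]
      field_simp
    rw [e1, e2]
    exact mul_le_mul_of_nonneg_right hk (by positivity)

lemma inner_le (s : Set ℝ) (hs : MeasurableSet s) (x : ℝ) (hx : x ∈ Ioo (0 : ℝ) 1) :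
    ∫⁻ y, R1.indicator (KK s) (x, y) ∂om ≤ ENNReal.ofReal (1 / x) * (2 * BB s) := by
  have mI : Measurable (R1.indicator (KK s)) := (meas_KK s hs).indicator meas_R1
  have mI2 : Measurable (fun y => R1.indicator (KK s) (x, y)) := mI.comp (by fun_prop)
  have e : ∫⁻ y, R1.indicator (KK s) (x, y) ∂om = ∫⁻ y, ENNReal.ofReal (1 / (1 - y)) * R1.indicator (KK s) (x, y) ∂tau := by
    unfold om
    exact lintegral_withDensity_eq_lintegral_mul _ meas_om mI2
  rw [e]
  calc ∫⁻ y, ENNReal.ofReal (1 / (1 - y)) * R1.indicator (KK s) (x, y) ∂tau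
      ≤ ∫⁻ y in Ioo (0 : ℝ) 1, ENNReal.ofReal ((min y (1 - y)) ^ 2 / (π * |2 * y - 1|)) *
        (ENNReal.ofReal (1 / (1 - y)) * R1.indicator (KK s) (x, y)) := tau_le _ (meas_om.mul mI2)
    _ ≤ ∫⁻ y in Ioo (0 : ℝ) 1, 2 * s.indicator gg (x * y) :=
        setLIntegral_mono' measurableSet_Ioo (fun y hy => point s x y hx hy)
    _ ≤ ENNReal.ofReal (1 / x) * ∫⁻ y in Ioo (0 : ℝ) 1, 2 * s.indicator gg y :=
        scale x hx (fun y => 2 * s.indicator gg y) ((meas_gg.indicator hs).const_mul 2)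
    _ = ENNReal.ofReal (1 / x) * (2 * BB s) := by
        rw [lintegral_const_mul _ (meas_gg.indicator hs), BB]

theorem dom : LL om ≤ PP := by
  have := om_finite
  rw [Measure.le_iff]
  intro s hs
  have mI : Measurable (R1.indicator (KK s)) := (meas_KK s hs).indicator meas_R1
  calc LL om s ≤ ∫⁻ z, R1.indicator (KK s) z ∂(om.prod om) := LL_le s hs
    _ = ∫⁻ x, ∫⁻ y, R1.indicator (KK s) (x, y) ∂om ∂om := lintegral_prod _ mI.aemeasurable
    _ ≤ ∫⁻ x, ENNReal.ofReal (1 / x) * (2 * BB s) ∂om := by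
        apply lintegral_mono_ae
        filter_upwards [om_ae] with x hx
        exact inner_le s hs x hx
    _ = ∫⁻ x, ENNReal.ofReal (1 / (1 - x)) * (ENNReal.ofReal (1 / x) * (2 * BB s)) ∂tau := by
        unfold om
        exact lintegral_withDensity_eq_lintegral_mul _ meas_om (by fun_prop)
    _ = ∫⁻ x, ENNReal.ofReal (1 / (x * (1 - x))) * (2 * BB s) ∂tau := by
        apply lintegral_congr_ae
        filter_upwards [tau_ae] with x hx
        have h1 := hx.1
        have h2 : 0 < 1 - x := by linarith [hx.2]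
        rw [← mul_assoc, ← ENNReal.ofReal_mul (by positivity)]
        congr 2
        field_simp
    _ = (∫⁻ x, ENNReal.ofReal (1 / (x * (1 - x))) ∂tau) * (2 * BB s) := lintegral_mul_const _ (by fun_prop)
    _ ≤ ENNReal.ofReal (1 / 4 + 4 / (9 * π ^ 2)) * (2 * BB s) := mul_le_mul_left Q_bound _
    _ = ENNReal.ofReal (2 * (1 / 4 + 4 / (9 * π ^ 2))) * BB s := by
        rw [ENNReal.ofReal_mul (by norm_num)]
        simp only [ENNReal.ofReal_ofNat]
        ring
    _ ≤ ENNReal.ofReal cc * BB s := mul_le_mul_left (ENNReal.ofReal_le_ofReal two_Q) _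
    _ ≤ PP s := PP_ge s hs

end Pool.Agent.Q267.FLF
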