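import Pool.Agent.Q267.FLF.Dom

set_option autoImplicit false

namespace Pool.Agent.Q267.FLF

open MeasureTheory Set
open scoped Real

lemma meas_PP : Measurable (fun x : ℝ => ENNReal.ofReal (cc * (1 - x))) := by fun_prop

lemma tau_finite : IsFiniteMeasure tau := by
  constructor
  rw [← lintegral_one]
  refine lt_of_le_of_lt ?_ Q_lt_top
  apply lintegral_mono_ae
  filter_upwards [tau_ae] with x hx
  rw [← ENNReal.ofReal_one]
  apply ENNReal.ofReal_le_ofReal
  rw [le_div_iff₀ (mul_pos hx.1 (by linarith [hx.2]))]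
  nlinarith [hx.1, hx.2]

lemma tau_ae' : ∀ᵐ x ∂tau, x ∈ Icc (0 : ℝ) 1 := by
  filter_upwards [tau_ae] with x hx
  exact ⟨hx.1.le, hx.2.le⟩

lemma PP_finite : IsFiniteMeasure PP := by
  have := tau_finite
  unfold PP
  apply isFiniteMeasure_withDensity
  apply ne_of_lt
  calc ∫⁻ x, ENNReal.ofReal (cc * (1 - x)) ∂tau ≤ ∫⁻ _, ENNReal.ofReal cc ∂tau := by
        apply lintegral_mono_ae
        filter_upwards [tau_ae] with x hx
        apply ENNReal.ofReal_le_ofReal
        have := cc_pos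
        nlinarith [hx.1]
    _ < ⊤ := by
        rw [lintegral_const]
        exact ENNReal.mul_lt_top (by simp) (measure_lt_top _ _)

lemma PP_ae : ∀ᵐ x ∂PP, x ∈ Icc (0 : ℝ) 1 :=
  (withDensity_absolutelyContinuous tau _).ae_le tau_ae'

lemma PP_moment (n : ℕ) : ∫ y, y ^ n ∂PP = cc * (mu n - mu (n + 1)) := by
  have := tau_finite
  unfold PP
  rw [integral_withDensity_eq_integral_toReal_smul meas_PP (by simp)]
  have e : ∫ x, (ENNReal.ofReal (cc * (1 - x))).toReal • x ^ n ∂tau = ∫ x, cc * (x ^ n - x ^ (n + 1)) ∂tau := by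
    apply integral_congr_ae
    filter_upwards [tau_ae] with x hx
    rw [ENNReal.toReal_ofReal (mul_nonneg cc_pos.le (by linarith [hx.2])), smul_eq_mul]
    ring
  rw [e, integral_const_mul, integral_sub (int_pow tau 1 tau_ae' n) (int_pow tau 1 tau_ae' (n + 1)), tau_moment, tau_moment]

lemma LL_om_finite : IsFiniteMeasure (LL om) := by
  have := om_finite
  exact LL_finite om 1 om_ae'

noncomputable def sg : Measure ℝ := PP - LL om

lemma sg_add : sg + LL om = PP := by
  have := LL_om_finite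
  exact Measure.sub_add_cancel_of_le dom

lemma sg_le : sg ≤ PP := Measure.sub_le

lemma sg_finite : IsFiniteMeasure sg := by
  have := PP_finite
  exact isFiniteMeasure_of_le PP sg_le

lemma sg_ae : ∀ᵐ x ∂sg, x ∈ Icc (0 : ℝ) 1 := (Measure.absolutelyContinuous_of_le sg_le).ae_le PP_ae

lemma sg_moment (n : ℕ) : ∫ y, y ^ n ∂sg = cc * (mu n - mu (n + 1)) - (A n * A (n + 2) - A (n + 1) ^ 2) := by
  have h1 := sg_finite
  have h2 := LL_om_finite
  have h3 := om_finite
  have hL : ∀ᵐ y ∂(LL om), y ∈ Icc (0 : ℝ) 1 := by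
    have := LL_supp om 1 om_ae'
    simpa using this
  have e : ∫ y, y ^ n ∂PP = ∫ y, y ^ n ∂sg + ∫ y, y ^ n ∂(LL om) := by
    rw [← sg_add, integral_add_measure (int_pow sg 1 sg_ae n) (int_pow (LL om) 1 hL n)]
  rw [PP_moment, LL_moment om 1 om_ae'] at e
  unfold A
  linarith

/-- `W_(n+2)` is `256^(n+2)` times the moment of `sg` -/
lemma W_eq (n : ℕ) : V (n + 2) ^ 2 - V (n + 1) * V (n + 3) = 256 ^ (n + 2) * ∫ y, y ^ n ∂sg := by
  rw [sg_moment, (V_eq n).1, (V_eq n).2, (V_eq (n + 1)).2, vv_A, vv_A, vv_A, ← A_mu n, ← A_mu (n + 1)]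
  have e : (256 : ℝ) ^ (n + 2) = 16 ^ (n + 2) * 16 ^ (n + 2) := by
    rw [← mul_pow]; norm_num
  rw [e]
  ring

noncomputable def rho : Measure ℝ := (256 ^ 2 : NNReal) • (sg.map (fun y => 256 * y))

lemma rho_finite : IsFiniteMeasure rho := by
  have := sg_finite
  unfold rho
  infer_instance

lemma rho_ae : ∀ᵐ x ∂rho, x ∈ Icc (0 : ℝ) 256 := by
  unfold rho
  have h : ∀ᵐ x ∂(sg.map (fun y => 256 * y)), x ∈ Icc (0 : ℝ) 256 := by
    have hm : MeasurableSet {y : ℝ | y ∈ Icc (0 : ℝ) 256} := measurableSet_Icc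
    rw [ae_map_iff (by fun_prop) hm]
    filter_upwards [sg_ae] with x hx
    exact ⟨by linarith [hx.1], by linarith [hx.2]⟩
  exact Measure.ae_smul_measure h _

lemma rho_moment (n : ℕ) : ∫ t, t ^ n ∂rho = 256 ^ (n + 2) * ∫ y, y ^ n ∂sg := by
  unfold rho
  rw [integral_smul_nnreal_measure, integral_map (by fun_prop) (by fun_prop)]
  simp_rw [mul_pow]
  rw [integral_const_mul]
  simp [NNReal.smul_def]
  ring

theorem main (n : ℕ) : V (n + 2) ^ 2 - V (n + 1) * V (n + 3) = ∫ t, t ^ n ∂rho := by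
  rw [rho_moment, W_eq]

end Pool.Agent.Q267.FLF
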