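import Mathlib

set_option autoImplicit false

namespace Pool.Agent.Q267.FLF

open MeasureTheory Set

lemma int_pow (μ : Measure ℝ) [IsFiniteMeasure μ] (M : ℝ) (h : ∀ᵐ x ∂μ, x ∈ Icc 0 M) (n : ℕ) :
    Integrable (fun x : ℝ => x ^ n) μ := by
  apply Integrable.of_bound (C := M ^ n) (by fun_prop)
  filter_upwards [h] with x hx
  rw [Real.norm_eq_abs, abs_of_nonneg (pow_nonneg hx.1 n)]
  exact pow_le_pow_left₀ hx.1 hx.2 n

/-- the measure of `(x_n x_(n+2) - x_(n+1)²)` -/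
noncomputable def LL (μ : Measure ℝ) : Measure ℝ :=
  ((μ.prod μ).withDensity (fun z => ENNReal.ofReal ((z.1 - z.2) ^ 2 / 2))).map (fun z : ℝ × ℝ => z.1 * z.2)

lemma meas_dens : Measurable (fun z : ℝ × ℝ => ENNReal.ofReal ((z.1 - z.2) ^ 2 / 2)) := by fun_prop

lemma meas_mul : Measurable (fun z : ℝ × ℝ => z.1 * z.2) := by fun_prop

lemma ae_prod (μ : Measure ℝ) [IsFiniteMeasure μ] (M : ℝ) (h : ∀ᵐ x ∂μ, x ∈ Icc 0 M) :
    ∀ᵐ z ∂(μ.prod μ), z.1 ∈ Icc 0 M ∧ z.2 ∈ Icc 0 M := by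
  have h1 : ∀ᵐ z ∂(μ.prod μ), z.1 ∈ Icc 0 M := Measure.quasiMeasurePreserving_fst.ae h
  have h2 : ∀ᵐ z ∂(μ.prod μ), z.2 ∈ Icc 0 M := Measure.quasiMeasurePreserving_snd.ae h
  filter_upwards [h1, h2] with z hz1 hz2
  exact ⟨hz1, hz2⟩

lemma LL_moment (μ : Measure ℝ) [IsFiniteMeasure μ] (M : ℝ) (h : ∀ᵐ x ∂μ, x ∈ Icc 0 M) (n : ℕ) :
    ∫ y, y ^ n ∂(LL μ) = (∫ x, x ^ n ∂μ) * (∫ x, x ^ (n + 2) ∂μ) - (∫ x, x ^ (n + 1) ∂μ) ^ 2 := by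
  unfold LL
  rw [integral_map meas_mul.aemeasurable (by fun_prop),
    integral_withDensity_eq_integral_toReal_smul meas_dens (by simp)]
  have e : ∀ z : ℝ × ℝ, (ENNReal.ofReal ((z.1 - z.2) ^ 2 / 2)).toReal • (z.1 * z.2) ^ n
      = (1 / 2) * (z.1 ^ (n + 2) * z.2 ^ n) - z.1 ^ (n + 1) * z.2 ^ (n + 1) + (1 / 2) * (z.1 ^ n * z.2 ^ (n + 2)) := by
    intro z
    rw [ENNReal.toReal_ofReal (by positivity), smul_eq_mul]
    ring
  simp_rw [e]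
  have i : ∀ a b : ℕ, Integrable (fun z : ℝ × ℝ => z.1 ^ a * z.2 ^ b) (μ.prod μ) := fun a b =>
    (int_pow μ M h a).mul_prod (int_pow μ M h b)
  have v : ∀ a b : ℕ, ∫ z : ℝ × ℝ, z.1 ^ a * z.2 ^ b ∂(μ.prod μ) = (∫ x, x ^ a ∂μ) * ∫ x, x ^ b ∂μ := fun a b =>
    integral_prod_mul (fun x : ℝ => x ^ a) (fun x : ℝ => x ^ b)
  have j1 : Integrable (fun z : ℝ × ℝ => (1 / 2 : ℝ) * (z.1 ^ (n + 2) * z.2 ^ n)) (μ.prod μ) := (i _ _).const_mul _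
  have j2 : Integrable (fun z : ℝ × ℝ => z.1 ^ (n + 1) * z.2 ^ (n + 1)) (μ.prod μ) := i _ _
  have j3 : Integrable (fun z : ℝ × ℝ => (1 / 2 : ℝ) * (z.1 ^ n * z.2 ^ (n + 2))) (μ.prod μ) := (i _ _).const_mul _
  have j12 : Integrable (fun z : ℝ × ℝ => (1 / 2 : ℝ) * (z.1 ^ (n + 2) * z.2 ^ n) - z.1 ^ (n + 1) * z.2 ^ (n + 1))
    (μ.prod μ) := j1.sub j2
  rw [integral_add j12 j3, integral_sub j1 j2, integral_const_mul, integral_const_mul, v, v, v]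
  ring

lemma LL_finite (μ : Measure ℝ) [IsFiniteMeasure μ] (M : ℝ) (h : ∀ᵐ x ∂μ, x ∈ Icc 0 M) : IsFiniteMeasure (LL μ) := by
  unfold LL
  have : IsFiniteMeasure ((μ.prod μ).withDensity (fun z => ENNReal.ofReal ((z.1 - z.2) ^ 2 / 2))) := by
    apply isFiniteMeasure_withDensity
    apply ne_of_lt
    calc ∫⁻ z, ENNReal.ofReal ((z.1 - z.2) ^ 2 / 2) ∂(μ.prod μ) ≤ ∫⁻ z, ENNReal.ofReal (M ^ 2 / 2) ∂(μ.prod μ) := by
          apply lintegral_mono_ae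
          filter_upwards [ae_prod μ M h] with z hz
          apply ENNReal.ofReal_le_ofReal
          have := hz.1.1; have := hz.1.2; have := hz.2.1; have := hz.2.2
          nlinarith
      _ < ⊤ := by
          rw [lintegral_const]
          exact ENNReal.mul_lt_top (by simp) (measure_lt_top _ _)
  infer_instance

lemma LL_supp (μ : Measure ℝ) [IsFiniteMeasure μ] (M : ℝ) (h : ∀ᵐ x ∂μ, x ∈ Icc 0 M) :
    ∀ᵐ y ∂(LL μ), y ∈ Icc 0 (M ^ 2) := by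
  unfold LL
  have hm : MeasurableSet {y : ℝ | y ∈ Icc 0 (M ^ 2)} := measurableSet_Icc
  rw [ae_map_iff meas_mul.aemeasurable hm]
  apply (withDensity_absolutelyContinuous (μ.prod μ) _).ae_le
  filter_upwards [ae_prod μ M h] with z hz
  refine ⟨mul_nonneg hz.1.1 hz.2.1, ?_⟩
  calc z.1 * z.2 ≤ M * M := mul_le_mul hz.1.2 hz.2.2 hz.2.1 (le_trans hz.1.1 hz.1.2)
    _ = M ^ 2 := by ring

/-- sequences of moments of a finite measure with compact support in `[0, ∞)` -/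
def IsMom (x : ℕ → ℝ) : Prop :=
  ∃ (μ : Measure ℝ) (M : ℝ), IsFiniteMeasure μ ∧ (∀ᵐ t ∂μ, t ∈ Icc 0 M) ∧ ∀ n, x n = ∫ t, t ^ n ∂μ

lemma IsMom.nonneg {x : ℕ → ℝ} (h : IsMom x) (n : ℕ) : 0 ≤ x n := by
  obtain ⟨μ, M, _, h1, h2⟩ := h
  rw [h2]
  apply integral_nonneg_of_ae
  filter_upwards [h1] with t ht
  exact pow_nonneg ht.1 n

lemma IsMom.step {x : ℕ → ℝ} (h : IsMom x) : IsMom (fun n => x n * x (n + 2) - x (n + 1) ^ 2) := by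
  obtain ⟨μ, M, _, h1, h2⟩ := h
  refine ⟨LL μ, M ^ 2, LL_finite μ M h1, LL_supp μ M h1, fun n => ?_⟩
  rw [LL_moment μ M h1]
  simp only [h2]

end Pool.Agent.Q267.FLF
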