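import Pool.Agent.Q267.FLF.Tau

set_option autoImplicit false

namespace Pool.Agent.Q267.FLF

open MeasureTheory Set
open scoped Real

lemma base_ae : ∀ᵐ z ∂base, z.1 ∈ Ioo (0 : ℝ) 1 ∧ z.2 ∈ Ioo (-1 : ℝ) 1 := by
  unfold base
  have h1 : ∀ᵐ z ∂((volume.restrict (Ioo (0 : ℝ) 1)).prod (volume.restrict (Ioo (-1 : ℝ) 1))), z.1 ∈ Ioo (0 : ℝ) 1 :=
    Measure.quasiMeasurePreserving_fst.ae (ae_restrict_mem measurableSet_Ioo)
  have h2 : ∀ᵐ z ∂((volume.restrict (Ioo (0 : ℝ) 1)).prod (volume.restrict (Ioo (-1 : ℝ) 1))), z.2 ∈ Ioo (-1 : ℝ) 1 :=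
    Measure.quasiMeasurePreserving_snd.ae (ae_restrict_mem measurableSet_Ioo)
  filter_upwards [h1, h2] with z hz1 hz2
  exact ⟨hz1, hz2⟩

lemma tau_ae : ∀ᵐ x ∂tau, x ∈ Ioo (0 : ℝ) 1 := by
  unfold tau
  have hm : MeasurableSet {y : ℝ | y ∈ Ioo (0 : ℝ) 1} := measurableSet_Ioo
  rw [ae_map_iff meas_x.aemeasurable hm]
  apply (withDensity_absolutelyContinuous base _).ae_le
  filter_upwards [base_ae] with z hz
  have h1 : |z.1 * z.2| < 1 := by
    rw [abs_mul]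
    have a1 : |z.1| < 1 := abs_lt.2 ⟨by linarith [hz.1.1], hz.1.2⟩
    have a2 : |z.2| < 1 := abs_lt.2 hz.2
    have := abs_nonneg z.1; have := abs_nonneg z.2
    nlinarith
  have h2 := abs_lt.1 h1
  constructor <;> linarith [h2.1, h2.2]

lemma lint_tau (g : ℝ → ENNReal) (hg : Measurable g) :
    ∫⁻ x, g x ∂tau = ∫⁻ z, ENNReal.ofReal (wt z) * g ((1 + z.1 * z.2) / 2) ∂base := by
  unfold tau
  rw [lintegral_map hg meas_x]
  exact lintegral_withDensity_eq_lintegral_mul _ meas_wt (hg.comp meas_x)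

lemma sq_int : ∫ a in Ioo (0 : ℝ) 1, a ^ 2 = 1 / 3 := by
  rw [← integral_Ioc_eq_integral_Ioo, ← intervalIntegral.integral_of_le (by norm_num)]
  simp; norm_num

lemma sq_int2 : ∫ a in Ioo (-1 : ℝ) 1, a ^ 2 = 2 / 3 := by
  rw [← integral_Ioc_eq_integral_Ioo, ← intervalIntegral.integral_of_le (by norm_num)]
  simp; norm_num

/-- the constant `Q` -/
lemma Q_bound : ∫⁻ x, ENNReal.ofReal (1 / (x * (1 - x))) ∂tau ≤ ENNReal.ofReal (1 / 4 + 4 / (9 * π ^ 2)) := by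
  rw [lint_tau _ (by fun_prop)]
  have i1 : Integrable (fun z : ℝ × ℝ => (z.1 ^ 0 * √(1 - z.1 ^ 2)) * (z.2 ^ 0 * √(1 - z.2 ^ 2))) base :=
    (int_a 0).mul_prod (int_b 0)
  have s1 : Integrable (fun a : ℝ => a ^ 2) (volume.restrict (Ioo (0 : ℝ) 1)) :=
    ((by fun_prop : Continuous (fun a : ℝ => a ^ 2)).integrableOn_Icc (a := 0) (b := 1)).mono_set Ioo_subset_Icc_self
  have s2 : Integrable (fun a : ℝ => a ^ 2) (volume.restrict (Ioo (-1 : ℝ) 1)) :=
    ((by fun_prop : Continuous (fun a : ℝ => a ^ 2)).integrableOn_Icc (a := -1) (b := 1)).mono_set Ioo_subset_Icc_self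
  have i2 : Integrable (fun z : ℝ × ℝ => z.1 ^ 2 * z.2 ^ 2) base := s1.mul_prod s2
  have v1 : ∫ z : ℝ × ℝ, (z.1 ^ 0 * √(1 - z.1 ^ 2)) * (z.2 ^ 0 * √(1 - z.2 ^ 2)) ∂base = al 0 * be 0 :=
    integral_prod_mul (fun a : ℝ => a ^ 0 * √(1 - a ^ 2)) (fun a : ℝ => a ^ 0 * √(1 - a ^ 2))
  have v2 : ∫ z : ℝ × ℝ, z.1 ^ 2 * z.2 ^ 2 ∂base = (1 / 3) * (2 / 3) := by
    have := integral_prod_mul (μ := volume.restrict (Ioo (0 : ℝ) 1)) (ν := volume.restrict (Ioo (-1 : ℝ) 1))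
      (fun a : ℝ => a ^ 2) (fun a : ℝ => a ^ 2)
    rw [sq_int, sq_int2] at this
    exact this
  have hp : 0 < π := Real.pi_pos
  calc ∫⁻ z, ENNReal.ofReal (wt z) * ENNReal.ofReal (1 / ((1 + z.1 * z.2) / 2 * (1 - (1 + z.1 * z.2) / 2))) ∂base
      ≤ ∫⁻ z, ENNReal.ofReal (2 / π ^ 2 * ((z.1 ^ 0 * √(1 - z.1 ^ 2)) * (z.2 ^ 0 * √(1 - z.2 ^ 2)) + z.1 ^ 2 * z.2 ^ 2)) ∂base := by
        apply lintegral_mono_ae
        filter_upwards [base_ae] with z hz
        rw [← ENNReal.ofReal_mul (wt_nonneg z)]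
        apply ENNReal.ofReal_le_ofReal
        obtain ⟨⟨a1, a2⟩, b1, b2⟩ := hz
        set a := z.1
        set b := z.2
        have ha : 0 < 1 - a ^ 2 := by nlinarith
        have hb : 0 < 1 - b ^ 2 := by nlinarith
        have hab : 0 < 1 - a ^ 2 * b ^ 2 := by nlinarith [sq_nonneg a, sq_nonneg b]
        set s := √(1 - a ^ 2)
        set t := √(1 - b ^ 2)
        have hs : 0 < s := Real.sqrt_pos.2 ha
        have ht : 0 < t := Real.sqrt_pos.2 hb
        have hs2 : s ^ 2 = 1 - a ^ 2 := Real.sq_sqrt ha.le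
        have ht2 : t ^ 2 = 1 - b ^ 2 := Real.sq_sqrt hb.le
        have hst : s * t ≤ 1 - a ^ 2 * b ^ 2 := by nlinarith [sq_nonneg (s - t), sq_nonneg a, sq_nonneg b]
        have e : wt z * (1 / ((1 + a * b) / 2 * (1 - (1 + a * b) / 2))) = 2 / π ^ 2 * (s * t / (1 - a ^ 2 * b ^ 2)) := by
          have e1 : (1 + a * b) / 2 * (1 - (1 + a * b) / 2) = (1 - a ^ 2 * b ^ 2) / 4 := by ring
          have e2 : wt z = s * t / (2 * π ^ 2) := rfl
          rw [e1, e2]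
          field_simp
          norm_num
        rw [e]
        apply mul_le_mul_of_nonneg_left _ (by positivity)
        rw [div_le_iff₀ hab]
        simp only [pow_zero, one_mul]
        have : (s * t + a ^ 2 * b ^ 2) * (1 - a ^ 2 * b ^ 2) - s * t = (a ^ 2 * b ^ 2) * (1 - a ^ 2 * b ^ 2 - s * t) := by ring
        have h3 : 0 ≤ (a ^ 2 * b ^ 2) * (1 - a ^ 2 * b ^ 2 - s * t) := mul_nonneg (by positivity) (by linarith)
        linarith
    _ = ENNReal.ofReal (∫ z, 2 / π ^ 2 * ((z.1 ^ 0 * √(1 - z.1 ^ 2)) * (z.2 ^ 0 * √(1 - z.2 ^ 2)) + z.1 ^ 2 * z.2 ^ 2) ∂base) := by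
        have i3 : Integrable (fun z : ℝ × ℝ => 2 / π ^ 2 * ((z.1 ^ 0 * √(1 - z.1 ^ 2)) * (z.2 ^ 0 * √(1 - z.2 ^ 2))
          + z.1 ^ 2 * z.2 ^ 2)) base := (i1.add i2).const_mul _
        rw [ofReal_integral_eq_lintegral_ofReal i3]
        filter_upwards with z
        simp only [Pi.zero_apply]
        positivity
    _ = ENNReal.ofReal (1 / 4 + 4 / (9 * π ^ 2)) := by
        congr 1
        rw [integral_const_mul, integral_add i1 i2, v1, v2, al_zero, be_zero]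
        field_simp
        ring

lemma Q_lt_top : ∫⁻ x, ENNReal.ofReal (1 / (x * (1 - x))) ∂tau < ⊤ := lt_of_le_of_lt Q_bound ENNReal.ofReal_lt_top

/-- `ω = τ / (1 - x)` -/
noncomputable def om : Measure ℝ := tau.withDensity (fun x => ENNReal.ofReal (1 / (1 - x)))

lemma meas_om : Measurable (fun x : ℝ => ENNReal.ofReal (1 / (1 - x))) := by fun_prop

lemma om_finite : IsFiniteMeasure om := by
  unfold om
  apply isFiniteMeasure_withDensity
  apply ne_of_lt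
  refine lt_of_le_of_lt ?_ Q_lt_top
  apply lintegral_mono_ae
  filter_upwards [tau_ae] with x hx
  apply ENNReal.ofReal_le_ofReal
  apply one_div_le_one_div_of_le
  · exact mul_pos hx.1 (by linarith [hx.2])
  · nlinarith [hx.1, hx.2]

lemma om_ae : ∀ᵐ x ∂om, x ∈ Ioo (0 : ℝ) 1 :=
  (withDensity_absolutelyContinuous tau _).ae_le tau_ae

lemma om_ae' : ∀ᵐ x ∂om, x ∈ Icc (0 : ℝ) 1 := by
  filter_upwards [om_ae] with x hx
  exact ⟨hx.1.le, hx.2.le⟩

lemma int_om (g : ℝ → ℝ) : ∫ x, g x ∂om = ∫ x, g x / (1 - x) ∂tau := by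
  unfold om
  rw [integral_withDensity_eq_integral_toReal_smul meas_om (by simp)]
  apply integral_congr_ae
  filter_upwards [tau_ae] with x hx
  have : 0 ≤ 1 / (1 - x) := by
    have := hx.2
    exact div_nonneg zero_le_one (by linarith)
  rw [ENNReal.toReal_ofReal this, smul_eq_mul]
  ring

/-- `A_n` -/
noncomputable def A (n : ℕ) : ℝ := ∫ x, x ^ n ∂om

lemma A_mu (n : ℕ) : A n - A (n + 1) = mu n := by
  have := om_finite
  unfold A
  rw [← integral_sub (int_pow om 1 om_ae' n) (int_pow om 1 om_ae' (n + 1)), int_om, ← tau_moment]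
  apply integral_congr_ae
  filter_upwards [tau_ae] with x hx
  have h1 : 1 - x ≠ 0 := (sub_pos.2 hx.2).ne'
  rw [div_eq_iff h1]
  ring

lemma A_nonneg (n : ℕ) : 0 ≤ A n := by
  unfold A
  apply integral_nonneg_of_ae
  filter_upwards [om_ae] with t ht
  exact pow_nonneg ht.1.le n

noncomputable def cc : ℝ := 1 / 2 + A 0

lemma vv_A (n : ℕ) : vv n = cc - A n := by
  induction n with
  | zero => simp [vv, cc]
  | succ n ih => rw [vv_succ, ih, ← A_mu n]; ring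

lemma cc_ge : 19 / 32 ≤ cc := by
  have h1 := vv_A 2
  have h2 := A_nonneg 2
  have h3 : vv 2 = 19 / 32 := by
    rw [vv_succ, vv_succ, mu_zero, mu_one]
    simp [vv]; norm_num
  linarith

/-- `2 Q ≤ c` -/
lemma two_Q : 2 * (1 / 4 + 4 / (9 * π ^ 2)) ≤ cc := by
  have hp := Real.pi_gt_d2
  have hp2 : (9.859 : ℝ) ≤ π ^ 2 := by nlinarith
  have h := cc_ge
  have : 4 / (9 * π ^ 2) ≤ 4 / (9 * 9.859) := by
    apply div_le_div_of_nonneg_left (by norm_num) (by norm_num)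
    linarith
  norm_num at this ⊢
  linarith

end Pool.Agent.Q267.FLF
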