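import Mathlib

set_option autoImplicit false

namespace Pool.Agent.Q267.FLF

open Finset

/-- the normalised even moments of the semicircle -/
noncomputable def ga : ℕ → ℝ
  | 0 => 1
  | 1 => 0
  | (j + 2) => ga j * ((j : ℝ) + 1) / ((j : ℝ) + 4)

/-- `S k = ∑ C(k,j) γ_j²` -/
noncomputable def Sq (k : ℕ) : ℝ := ∑ j ∈ range (k + 1), (k.choose j : ℝ) * ga j ^ 2

lemma ga_step (j : ℕ) : ((j : ℝ) + 4) * ga (j + 2) = ((j : ℝ) + 1) * ga j := by
  have h : ((j : ℝ) + 4) ≠ 0 := by positivity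
  rw [ga]
  field_simp

lemma Sq_eq (k M : ℕ) (h : k < M) : Sq k = ∑ j ∈ range M, (k.choose j : ℝ) * ga j ^ 2 := by
  unfold Sq
  apply sum_subset
  · intro x hx
    simp only [mem_range] at hx ⊢
    omega
  · intro x hx hx'
    simp only [mem_range, not_lt] at hx hx'
    rw [Nat.choose_eq_zero_of_lt (by omega)]
    simp

lemma ch1 (n k : ℕ) : ((k : ℝ) + 1) * ((n.choose (k + 1) : ℕ) : ℝ) = ((n : ℝ) - k) * (n.choose k : ℝ) := by
  have h := Nat.choose_succ_right_eq n k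
  rcases le_or_gt k n with hk | hk
  · have h2 : ((n.choose (k + 1) * (k + 1) : ℕ) : ℝ) = ((n.choose k * (n - k) : ℕ) : ℝ) := by rw [h]
    push_cast [Nat.cast_sub hk] at h2
    linarith
  · rw [Nat.choose_eq_zero_of_lt hk, Nat.choose_eq_zero_of_lt (by omega)]
    simp

/-- the binomial identity behind the certificate, `j ≥ 1` (index `j+1`) -/
lemma cert (K j : ℕ) :
    (((K : ℝ) + 4) ^ 2) * ((K + 2).choose (j + 1) : ℝ)
      - (3 * ((K : ℝ) + 1) ^ 2 + 11 * ((K : ℝ) + 1) + 9) * ((K + 1).choose (j + 1) : ℝ)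
      + 2 * ((K : ℝ) + 1) * ((K : ℝ) + 3) * (K.choose (j + 1) : ℝ)
      = -(((j : ℝ) + 2) ^ 2) * ((K + 1).choose (j + 2) : ℝ) + ((j : ℝ) + 3) ^ 2 * ((K + 1).choose j : ℝ) := by
  have e1 := ch1 K j
  have e2 := ch1 K (j + 1)
  have p1 : ((K + 2).choose (j + 1) : ℝ) = ((K + 1).choose j : ℝ) + ((K + 1).choose (j + 1) : ℝ) := by
    rw [Nat.choose_succ_succ]; push_cast; ring
  have p2 : ((K + 1).choose (j + 1) : ℝ) = (K.choose j : ℝ) + (K.choose (j + 1) : ℝ) := by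
    rw [Nat.choose_succ_succ]; push_cast; ring
  have p3 : ((K + 1).choose (j + 2) : ℝ) = (K.choose (j + 1) : ℝ) + (K.choose (j + 2) : ℝ) := by
    rw [Nat.choose_succ_succ]; push_cast; ring
  have p4 : ((K : ℝ) + 1 - j) * ((K + 1).choose j : ℝ) = ((K : ℝ) + 1) * (K.choose j : ℝ) := by
    rcases le_or_gt j (K + 1) with hj | hj
    · have := Nat.choose_mul_succ_eq K j
      have h2 : ((K.choose j * (K + 1) : ℕ) : ℝ) = (((K + 1).choose j * (K + 1 - j) : ℕ) : ℝ) := by rw [this]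
      push_cast [Nat.cast_sub hj] at h2
      linarith
    · rw [Nat.choose_eq_zero_of_lt hj, Nat.choose_eq_zero_of_lt (by omega)]
      simp
  push_cast at e2 ⊢
  rw [p1, p2, p3]
  linear_combination ((K : ℝ) + j + 7) * p4 + ((K : ℝ) + 1) * e1 + ((j : ℝ) + 2) * e2

/-- the three-term recurrence of `S` -/
lemma Sq_rec (K : ℕ) : (((K : ℝ) + 4) ^ 2) * Sq (K + 2)
      - (3 * ((K : ℝ) + 1) ^ 2 + 11 * ((K : ℝ) + 1) + 9) * Sq (K + 1)
      + 2 * ((K : ℝ) + 1) * ((K : ℝ) + 3) * Sq K = 0 := by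
  set M := K + 4 with hM
  set G : ℕ → ℝ := fun j => -(((j : ℝ) + 2) ^ 2) * (if j = 0 then 0 else ((K + 1).choose (j - 1) : ℝ)) * ga j ^ 2
    with hG
  have key : ∀ j : ℕ, (((K : ℝ) + 4) ^ 2) * (((K + 2).choose j : ℝ) * ga j ^ 2)
      - (3 * ((K : ℝ) + 1) ^ 2 + 11 * ((K : ℝ) + 1) + 9) * (((K + 1).choose j : ℝ) * ga j ^ 2)
      + 2 * ((K : ℝ) + 1) * ((K : ℝ) + 3) * ((K.choose j : ℝ) * ga j ^ 2) = G (j + 2) - G j := by
    intro j
    have hga := ga_step j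
    rcases j with _ | j
    · simp only [hG, ga]
      norm_num
      ring
    · have hc := cert K j
      have hga2 : ((j : ℝ) + 5) ^ 2 * ga (j + 1 + 2) ^ 2 = ((j : ℝ) + 2) ^ 2 * ga (j + 1) ^ 2 := by
        have : (((j : ℝ) + 5) * ga (j + 1 + 2)) ^ 2 = (((j : ℝ) + 2) * ga (j + 1)) ^ 2 := by
          congr 1
          push_cast at hga
          linarith
        linarith [mul_pow ((j : ℝ) + 5) (ga (j + 1 + 2)) 2, mul_pow ((j : ℝ) + 2) (ga (j + 1)) 2]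
      simp only [hG]
      have h1 : (j + 1 + 2 - 1 : ℕ) = j + 2 := by omega
      have h2 : (j + 1 - 1 : ℕ) = j := by omega
      rw [if_neg (by omega), if_neg (by omega), h1, h2]
      push_cast
      linear_combination (ga (j + 1) ^ 2) * hc + ((K + 1).choose (j + 2) : ℝ) * hga2
  have hsum : (((K : ℝ) + 4) ^ 2) * Sq (K + 2)
      - (3 * ((K : ℝ) + 1) ^ 2 + 11 * ((K : ℝ) + 1) + 9) * Sq (K + 1)
      + 2 * ((K : ℝ) + 1) * ((K : ℝ) + 3) * Sq K = ∑ j ∈ range M, (G (j + 2) - G j) := by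
    rw [Sq_eq (K + 2) M (by omega), Sq_eq (K + 1) M (by omega), Sq_eq K M (by omega), mul_sum, mul_sum, mul_sum,
      ← sum_sub_distrib, ← sum_add_distrib]
    exact sum_congr rfl (fun j _ => key j)
  rw [hsum]
  have ht : ∀ N : ℕ, ∑ j ∈ range N, (G (j + 2) - G j) = G (N + 1) + G N - G 1 - G 0 := by
    intro N
    induction N with
    | zero => simp
    | succ n ih => rw [sum_range_succ, ih]; ring
  rw [ht]
  have c1 : (K + 1).choose (K + 4) = 0 := Nat.choose_eq_zero_of_lt (by omega)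
  have c2 : (K + 1).choose (K + 3) = 0 := Nat.choose_eq_zero_of_lt (by omega)
  have g1 : G (M + 1) = 0 := by simp [hG, hM, c1]
  have g2 : G M = 0 := by simp [hG, hM, c2]
  have g3 : G 1 = 0 := by simp [hG, ga]
  have g4 : G 0 = 0 := by simp [hG]
  rw [g1, g2, g3, g4]
  ring

/-- `μ_k = S_k / (16 · 2^k)` -/
noncomputable def mu (k : ℕ) : ℝ := Sq k / (16 * 2 ^ k)

lemma mu_zero : mu 0 = 1 / 16 := by
  simp [mu, Sq, ga]

lemma mu_one : mu 1 = 1 / 32 := by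
  simp [mu, Sq, ga, sum_range_succ]
  norm_num

lemma mu_rec (k : ℕ) : 2 * ((k : ℝ) + 4) ^ 2 * mu (k + 2) - (3 * ((k : ℝ) + 1) ^ 2 + 11 * ((k : ℝ) + 1) + 9) * mu (k + 1)
    + ((k : ℝ) + 1) * ((k : ℝ) + 3) * mu k = 0 := by
  have h := Sq_rec k
  have h2 : (2 : ℝ) ^ k ≠ 0 := by positivity
  have e : 2 * ((k : ℝ) + 4) ^ 2 * mu (k + 2) - (3 * ((k : ℝ) + 1) ^ 2 + 11 * ((k : ℝ) + 1) + 9) * mu (k + 1)
    + ((k : ℝ) + 1) * ((k : ℝ) + 3) * mu k = ((((k : ℝ) + 4) ^ 2) * Sq (k + 2)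
      - (3 * ((k : ℝ) + 1) ^ 2 + 11 * ((k : ℝ) + 1) + 9) * Sq (k + 1)
      + 2 * ((k : ℝ) + 1) * ((k : ℝ) + 3) * Sq k) / (32 * 2 ^ k) := by
    unfold mu
    rw [pow_succ, pow_succ]
    field_simp
    ring
  rw [e, h, zero_div]

/-- the Fennessey–Larcombe–French sequence -/
noncomputable def V : ℕ → ℝ
  | 0 => 1
  | 1 => 8
  | (n + 2) => 8 * (3 * ((n : ℝ) + 2) ^ 2 - ((n : ℝ) + 2) - 1) / ((n : ℝ) + 2) ^ 2 * V (n + 1)
      - 128 * (n : ℝ) / ((n : ℝ) + 1) * V n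

/-- `v_(n+1) = 1/2 + μ_0 + ... + μ_(n-1)` -/
noncomputable def vv (n : ℕ) : ℝ := 1 / 2 + ∑ k ∈ range n, mu k

lemma vv_succ (n : ℕ) : vv (n + 1) = vv n + mu n := by
  unfold vv; rw [sum_range_succ]; ring

/-- first order relation -/
lemma rel1 (n : ℕ) : ((n : ℝ) + 2) ^ 2 * (2 * ((n : ℝ) + 1) * mu n - (n : ℝ) * mu (n - 1)) = vv n := by
  induction n with
  | zero => simp [vv, mu_zero]; norm_num
  | succ n ih =>
    rw [vv_succ, ← ih]
    rcases n with _ | k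
    · simp only [Nat.add_sub_cancel]
      simp [mu_zero, mu_one]
      norm_num
    · have h := mu_rec k
      simp only [Nat.add_sub_cancel]
      push_cast
      linear_combination ((k : ℝ) + 3 - 0) * h

/-- `V_(n+1) = 16^(n+1) v_(n+1)` -/
lemma V_eq (n : ℕ) : V (n + 1) = 16 ^ (n + 1) * vv n ∧ V (n + 2) = 16 ^ (n + 2) * vv (n + 1) := by
  induction n with
  | zero =>
    constructor
    · simp [V, vv]; norm_num
    · simp [V, vv, mu_zero]; norm_num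
  | succ n ih =>
    refine ⟨ih.2, ?_⟩
    rw [V]
    rw [ih.2, ih.1]
    have h1 := rel1 (n + 1)
    rw [vv_succ (n + 1), vv_succ n] at *
    simp only [Nat.add_sub_cancel] at h1
    push_cast at h1 ⊢
    have e1 : ((n : ℝ) + 1 + 2) ≠ 0 := by positivity
    have e2 : ((n : ℝ) + 1 + 1) ≠ 0 := by positivity
    field_simp
    ring_nf
    ring_nf at h1
    linear_combination (-2048 * 16 ^ n : ℝ) * h1

end Pool.Agent.Q267.FLF
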