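import Pool.Agent.Q267.FLF.Seq
import Pool.Agent.Q267.FLF.Mom

set_option autoImplicit false

namespace Pool.Agent.Q267.FLF

open MeasureTheory Set
open scoped Real

/-- the weight -/
noncomputable def wt (z : ℝ × ℝ) : ℝ := √(1 - z.1 ^ 2) * √(1 - z.2 ^ 2) / (2 * π ^ 2)

noncomputable def base : Measure (ℝ × ℝ) := (volume.restrict (Ioo 0 1)).prod (volume.restrict (Ioo (-1) 1))

/-- the measure with moments `mu` -/
noncomputable def tau : Measure ℝ :=
  (base.withDensity (fun z => ENNReal.ofReal (wt z))).map (fun z => (1 + z.1 * z.2) / 2)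

noncomputable def al (j : ℕ) : ℝ := ∫ a in Ioo (0 : ℝ) 1, a ^ j * √(1 - a ^ 2)
noncomputable def be (j : ℕ) : ℝ := ∫ a in Ioo (-1 : ℝ) 1, a ^ j * √(1 - a ^ 2)

lemma al_eq (j : ℕ) : al j = ∫ a in (0 : ℝ)..1, a ^ j * √(1 - a ^ 2) := by
  rw [intervalIntegral.integral_of_le (by norm_num), integral_Ioc_eq_integral_Ioo, al]

lemma be_eq (j : ℕ) : be j = ∫ a in (-1 : ℝ)..1, a ^ j * √(1 - a ^ 2) := by
  rw [intervalIntegral.integral_of_le (by norm_num), integral_Ioc_eq_integral_Ioo, be]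

lemma ftc (j : ℕ) (x : ℝ) (hx : x ∈ Ioo (-1 : ℝ) 1) :
    HasDerivAt (fun x : ℝ => x ^ (j + 1) * ((1 - x ^ 2) * √(1 - x ^ 2)))
      (((j : ℝ) + 1) * (x ^ j * √(1 - x ^ 2)) - ((j : ℝ) + 4) * (x ^ (j + 2) * √(1 - x ^ 2))) x := by
  have hp : 0 < 1 - x ^ 2 := by nlinarith [hx.1, hx.2]
  have h1 : HasDerivAt (fun x : ℝ => 1 - x ^ 2) (-(2 * x)) x := by
    have := (hasDerivAt_pow 2 x).const_sub 1
    simpa using this
  have h2 : HasDerivAt (fun x : ℝ => √(1 - x ^ 2)) (-(2 * x) / (2 * √(1 - x ^ 2))) x := h1.sqrt hp.ne'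
  have h3 := (hasDerivAt_pow (j + 1) x).mul (h1.mul h2)
  have hs : √(1 - x ^ 2) ^ 2 = 1 - x ^ 2 := Real.sq_sqrt hp.le
  have hs0 : √(1 - x ^ 2) ≠ 0 := (Real.sqrt_pos.2 hp).ne'
  refine h3.congr_deriv ?_
  set s := √(1 - x ^ 2) with hsd
  have e : (1 - x ^ 2) * (-(2 * x) / (2 * s)) = -(x * s) := by
    rw [← hs]; field_simp
  simp only [Pi.mul_apply, Nat.add_sub_cancel]
  rw [e]
  push_cast
  ring

lemma rec_al (j : ℕ) : ((j : ℝ) + 4) * al (j + 2) = ((j : ℝ) + 1) * al j := by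
  have h := intervalIntegral.integral_eq_sub_of_hasDerivAt_of_le (a := (0 : ℝ)) (b := 1)
    (f := fun x : ℝ => x ^ (j + 1) * ((1 - x ^ 2) * √(1 - x ^ 2)))
    (f' := fun x => ((j : ℝ) + 1) * (x ^ j * √(1 - x ^ 2)) - ((j : ℝ) + 4) * (x ^ (j + 2) * √(1 - x ^ 2)))
    (by norm_num) (by fun_prop) (fun x hx => ftc j x ⟨by linarith [hx.1], hx.2⟩)
    (Continuous.intervalIntegrable (by fun_prop) _ _)
  rw [intervalIntegral.integral_sub (Continuous.intervalIntegrable (by fun_prop) _ _)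
    (Continuous.intervalIntegrable (by fun_prop) _ _), intervalIntegral.integral_const_mul,
    intervalIntegral.integral_const_mul, ← al_eq, ← al_eq] at h
  norm_num at h
  linarith

lemma rec_be (j : ℕ) : ((j : ℝ) + 4) * be (j + 2) = ((j : ℝ) + 1) * be j := by
  have h := intervalIntegral.integral_eq_sub_of_hasDerivAt_of_le (a := (-1 : ℝ)) (b := 1)
    (f := fun x : ℝ => x ^ (j + 1) * ((1 - x ^ 2) * √(1 - x ^ 2)))
    (f' := fun x => ((j : ℝ) + 1) * (x ^ j * √(1 - x ^ 2)) - ((j : ℝ) + 4) * (x ^ (j + 2) * √(1 - x ^ 2)))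
    (by norm_num) (by fun_prop) (fun x hx => ftc j x hx)
    (Continuous.intervalIntegrable (by fun_prop) _ _)
  rw [intervalIntegral.integral_sub (Continuous.intervalIntegrable (by fun_prop) _ _)
    (Continuous.intervalIntegrable (by fun_prop) _ _), intervalIntegral.integral_const_mul,
    intervalIntegral.integral_const_mul, ← be_eq, ← be_eq] at h
  norm_num at h
  linarith

lemma be_zero : be 0 = π / 2 := by
  rw [be_eq]
  simp [integral_sqrt_one_sub_sq]

lemma al_zero : al 0 = π / 4 := by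
  have h1 := be_zero
  rw [be_eq] at h1
  have h2 : ∫ a in (-1 : ℝ)..0, a ^ 0 * √(1 - a ^ 2) = al 0 := by
    rw [al_eq]
    have := intervalIntegral.integral_comp_neg (a := (0 : ℝ)) (b := 1) (fun a : ℝ => a ^ 0 * √(1 - a ^ 2))
    simp only [pow_zero, one_mul, neg_zero, even_two, Even.neg_pow] at this ⊢
    rw [← this]
  have h3 := intervalIntegral.integral_add_adjacent_intervals (μ := volume) (a := (-1 : ℝ)) (b := 0) (c := 1)
    (f := fun a : ℝ => a ^ 0 * √(1 - a ^ 2))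
    (Continuous.intervalIntegrable (by fun_prop) _ _) (Continuous.intervalIntegrable (by fun_prop) _ _)
  rw [h2, ← al_eq, h1] at h3
  linarith

lemma be_one : be 1 = 0 := by
  rw [be_eq]
  have := intervalIntegral.integral_comp_neg (a := (-1 : ℝ)) (b := 1) (fun a : ℝ => a ^ 1 * √(1 - a ^ 2))
  simp only [pow_one, neg_neg, even_two, Even.neg_pow, neg_mul, intervalIntegral.integral_neg] at this ⊢
  linarith

lemma be_ga : ∀ j : ℕ, be j = π / 2 * ga j ∧ be (j + 1) = π / 2 * ga (j + 1) := by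
  intro j
  induction j with
  | zero => simp [be_zero, be_one, ga]
  | succ j ih =>
    refine ⟨ih.2, ?_⟩
    have h1 := rec_be j
    have h2 := ga_step j
    have h3 : ((j : ℝ) + 4) ≠ 0 := by positivity
    apply mul_left_cancel₀ h3
    rw [h1, ih.1]
    linear_combination (-(π / 2)) * h2

lemma al_be : ∀ j : ℕ, al j * ga j = π / 4 * ga j ^ 2 ∧ al (j + 1) * ga (j + 1) = π / 4 * ga (j + 1) ^ 2 := by
  intro j
  induction j with
  | zero => simp [al_zero, ga]
  | succ j ih =>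
    refine ⟨ih.2, ?_⟩
    have h1 := rec_al j
    have h2 := ga_step j
    have h3 : ((j : ℝ) + 4) ≠ 0 := by positivity
    have h4 : ((j : ℝ) + 4) ^ 2 ≠ 0 := by positivity
    apply mul_left_cancel₀ h4
    have e1 : ((j : ℝ) + 4) ^ 2 * (al (j + 2) * ga (j + 2)) = (((j : ℝ) + 4) * al (j + 2)) * (((j : ℝ) + 4) * ga (j + 2)) := by
      ring
    have e2 : ((j : ℝ) + 4) ^ 2 * (π / 4 * ga (j + 2) ^ 2) = π / 4 * (((j : ℝ) + 4) * ga (j + 2)) ^ 2 := by ring
    rw [e1, e2, h1, h2]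
    linear_combination (((j : ℝ) + 1) ^ 2) * ih.1

lemma int_a (j : ℕ) : Integrable (fun a : ℝ => a ^ j * √(1 - a ^ 2)) (volume.restrict (Ioo 0 1)) :=
  ((by fun_prop : Continuous (fun a : ℝ => a ^ j * √(1 - a ^ 2))).integrableOn_Icc (a := 0) (b := 1)).mono_set
    Ioo_subset_Icc_self

lemma int_b (j : ℕ) : Integrable (fun a : ℝ => a ^ j * √(1 - a ^ 2)) (volume.restrict (Ioo (-1) 1)) :=
  ((by fun_prop : Continuous (fun a : ℝ => a ^ j * √(1 - a ^ 2))).integrableOn_Icc (a := -1) (b := 1)).mono_set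
    Ioo_subset_Icc_self

lemma meas_wt : Measurable (fun z : ℝ × ℝ => ENNReal.ofReal (wt z)) := by
  unfold wt; fun_prop

lemma meas_x : Measurable (fun z : ℝ × ℝ => (1 + z.1 * z.2) / 2) := by fun_prop

lemma wt_nonneg (z : ℝ × ℝ) : 0 ≤ wt z := by unfold wt; positivity

lemma tau_moment (k : ℕ) : ∫ x, x ^ k ∂tau = mu k := by
  unfold tau
  rw [integral_map meas_x.aemeasurable (by fun_prop),
    integral_withDensity_eq_integral_toReal_smul meas_wt (by simp)]
  have e : ∀ z : ℝ × ℝ, (ENNReal.ofReal (wt z)).toReal • ((1 + z.1 * z.2) / 2) ^ k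
      = ∑ j ∈ Finset.range (k + 1), ((k.choose j : ℝ) / (2 * π ^ 2 * 2 ^ k)) *
        ((z.1 ^ j * √(1 - z.1 ^ 2)) * (z.2 ^ j * √(1 - z.2 ^ 2))) := by
    intro z
    rw [ENNReal.toReal_ofReal (wt_nonneg z), smul_eq_mul, div_pow, add_comm (1 : ℝ), add_pow]
    simp only [one_pow, mul_one, wt]
    rw [Finset.sum_div, Finset.mul_sum]
    apply Finset.sum_congr rfl
    intro j _
    rw [mul_pow]
    field_simp
  simp_rw [e]
  have i : ∀ j : ℕ, Integrable (fun z : ℝ × ℝ => (z.1 ^ j * √(1 - z.1 ^ 2)) * (z.2 ^ j * √(1 - z.2 ^ 2))) base :=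
    fun j => (int_a j).mul_prod (int_b j)
  rw [integral_finsetSum _ (fun j _ => (i j).const_mul _)]
  unfold mu Sq
  rw [Finset.sum_div]
  apply Finset.sum_congr rfl
  intro j _
  rw [integral_const_mul]
  have v : ∫ z : ℝ × ℝ, (z.1 ^ j * √(1 - z.1 ^ 2)) * (z.2 ^ j * √(1 - z.2 ^ 2)) ∂base = al j * be j :=
    integral_prod_mul (fun a : ℝ => a ^ j * √(1 - a ^ 2)) (fun a : ℝ => a ^ j * √(1 - a ^ 2))
  rw [v, (be_ga j).1]
  have h := (al_be j).1
  have : al j * (π / 2 * ga j) = π ^ 2 / 8 * ga j ^ 2 := by linear_combination (π / 2) * h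
  rw [this]
  have hp : π ≠ 0 := Real.pi_ne_zero
  field_simp
  ring

end Pool.Agent.Q267.FLF
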